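import Pool.Agent.helper73.SHL.Spec

set_option autoImplicit false

namespace Pool.Agent.SHL

theorem HB_pow {G : Type} [Group G] (K L : Subgroup G) (hn : ∀ l ∈ L, ∀ k ∈ K, l * k * l⁻¹ ∈ K)
    (h g : G) (hh : h ∈ K) (hg : g ∈ L) (j : ℕ) : ∃ m ∈ K, (h⁻¹ * g) ^ j = m * g ^ j := by
  induction j with
  | zero => exact ⟨1, K.one_mem, by simp⟩
  | succ j ih =>
    obtain ⟨m, hm, e⟩ := ih
    refine ⟨m * (g ^ j * h⁻¹ * (g ^ j)⁻¹), K.mul_mem hm (hn _ (L.pow_mem hg j) _ (K.inv_mem hh)), ?_⟩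
    rw [pow_succ, e, pow_succ]
    group

/-- **HB**. -/
theorem HB : HB_stmt := by
  intro G G' _ _ φ N
  induction N with
  | zero => intro H _; exact ⟨0, 0, rfl, trivial, trivial⟩
  | succ N ih =>
    intro H hH
    obtain ⟨K, L, hKL, hLH, hn, ⟨g, hg, hgK⟩, hK⟩ := hH
    obtain ⟨a, b, hab, ha, hb⟩ := ih K hK
    by_cases hc : ∃ k : ℕ, 0 < k ∧ φ g ^ k ∈ K.map φ
    · obtain ⟨k, hk, hkm⟩ := hc
      obtain ⟨h, hh, he⟩ := Subgroup.mem_map.mp hkm
      refine ⟨a + 1, b, by omega, ?_, ?_⟩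
      · refine ⟨K ⊓ φ.ker, L ⊓ φ.ker, inf_le_inf_right _ hKL, inf_le_inf_right _ hLH, ?_, ?_, ha⟩
        · intro l hl x hx
          exact Subgroup.mem_inf.mpr ⟨hn l (Subgroup.mem_inf.mp hl).1 x (Subgroup.mem_inf.mp hx).1,
            (MonoidHom.normal_ker φ).conj_mem x (Subgroup.mem_inf.mp hx).2 l⟩
        · refine ⟨h⁻¹ * g ^ k, Subgroup.mem_inf.mpr ⟨L.mul_mem (L.inv_mem (hKL hh)) (L.pow_mem hg k), ?_⟩, ?_⟩
          · rw [MonoidHom.mem_ker, map_mul, map_inv, map_pow, he, inv_mul_cancel]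
          · intro j hj hx
            obtain ⟨m, hm, e⟩ := HB_pow K L hn h (g ^ k) hh (L.pow_mem hg k) j
            have h1 : (h⁻¹ * g ^ k) ^ j ∈ K := (Subgroup.mem_inf.mp hx).1
            rw [e] at h1
            have h2 : (g ^ k) ^ j ∈ K := (K.mul_mem_cancel_left hm).mp h1
            rw [← pow_mul] at h2
            exact hgK (k * j) (Nat.mul_pos hk hj) h2
      · -- monotonicity of `Hi`
        have mono : ∀ (n : ℕ) (A B : Subgroup G'), A ≤ B → Hi n A → Hi n B := by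
          intro n
          cases n with
          | zero => intro A B _ _; trivial
          | succ n =>
            rintro A B hAB ⟨K', L', h1, h2, h3, h4, h5⟩
            exact ⟨K', L', h1, h2.trans hAB, h3, h4, h5⟩
        exact mono b _ _ (Subgroup.map_mono (hKL.trans hLH)) hb
    · push Not at hc
      refine ⟨a, b + 1, by omega, ?_, ?_⟩
      · have mono : ∀ (n : ℕ) (A B : Subgroup G), A ≤ B → Hi n A → Hi n B := by
          intro n
          cases n with
          | zero => intro A B _ _; trivial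
          | succ n =>
            rintro A B hAB ⟨K', L', h1, h2, h3, h4, h5⟩
            exact ⟨K', L', h1, h2.trans hAB, h3, h4, h5⟩
        exact mono a _ _ (inf_le_inf_right _ (hKL.trans hLH)) ha
      · refine ⟨K.map φ, L.map φ, Subgroup.map_mono hKL, Subgroup.map_mono hLH, ?_,
          ⟨φ g, Subgroup.mem_map_of_mem φ hg, fun j hj => hc j hj⟩, hb⟩
        rintro _ ⟨l, hl, rfl⟩ _ ⟨x, hx, rfl⟩
        exact ⟨l * x * l⁻¹, hn l hl x hx, by simp⟩

end Pool.Agent.SHL
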